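import Pool.Graph.R_seed8.TH82.FG.Fin
import Pool.Graph.R_seed8.TH82.FG.SepIPf
import Pool.Graph.R_seed8.TH63.SC.Geom

/-!
# MP_7e344a_al: factors with all proper subgroups cyclic, and a product that contains a free group

There is a group `G = AB` such that `A` and `B` are generated by two elements and have only cyclic proper
subgroups (so all subgroups of `A` and of `B` need at most two generators), while `G` contains a free group of
rank 2 (so `G` has infinite special rank and does not satisfy the maximal condition). Moreover the centraliser of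
every nontrivial element of `G` is cyclic.
-/

set_option autoImplicit false

namespace Pool.Agent.Results.MP_7e344a_al.TarskiFactors

open Pool.Agent.TH82.FG Pool.Agent.TH82.FG.FinJob

/-- commuting subgroups and centralisers -/
theorem cyclic_of_centralised {R : Subgroup FF} [R.Normal]
    (hcen : ∀ t : FF, t ∉ R → ∃ z : FF, ∀ h : FF, h * t * h⁻¹ * t⁻¹ ∈ R → ∃ k : ℤ, h⁻¹ * z ^ k ∈ R)
    (H : Subgroup (FF ⧸ R)) (t : FF ⧸ R) (ht : t ≠ 1) (hc : ∀ q ∈ H, q * t = t * q) : IsCyclic H := by
  obtain ⟨t0, rfl⟩ := QuotientGroup.mk_surjective t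
  have ht3 : t0 ∉ R := fun h => ht ((QuotientGroup.eq_one_iff _).2 h)
  obtain ⟨z, hz⟩ := hcen t0 ht3
  have hle : H ≤ Subgroup.zpowers ((z : FF ⧸ R)) := by
    intro q hq
    obtain ⟨h, rfl⟩ := QuotientGroup.mk_surjective q
    have h1 := hc _ hq
    have h2 : h * t0 * h⁻¹ * t0⁻¹ ∈ R := by
      rw [← QuotientGroup.eq_one_iff, QuotientGroup.mk_mul, QuotientGroup.mk_mul,
        QuotientGroup.mk_mul, QuotientGroup.mk_inv, QuotientGroup.mk_inv, h1]
      group
    obtain ⟨k, hk⟩ := hz h h2
    refine Subgroup.mem_zpowers_iff.2 ⟨k, ?_⟩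
    rw [← QuotientGroup.mk_zpow]
    exact (QuotientGroup.eq.2 hk).symm
  exact Subgroup.isCyclic_of_le hle

/-- proper subgroups of a factor are cyclic -/
theorem proper_cyclic {R : Subgroup FF} [R.Normal] (κ : GG →* FF)
    (hgen : ∀ x y s : GG, κ (x * y * x⁻¹ * y⁻¹) ∉ R →
      ∃ v ∈ Subgroup.closure ({x, y} : Set GG), κ (v * s⁻¹) ∈ R)
    (hcen : ∀ t : FF, t ∉ R → ∃ z : FF, ∀ h : FF, h * t * h⁻¹ * t⁻¹ ∈ R → ∃ k : ℤ, h⁻¹ * z ^ k ∈ R)
    (H : Subgroup (FF ⧸ R)) (hH : H ≤ ((QuotientGroup.mk' R).comp κ).range)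
    (hne : H ≠ ((QuotientGroup.mk' R).comp κ).range) : IsCyclic H := by
  by_cases hc : ∀ g ∈ H, ∀ h ∈ H, g * h = h * g
  · by_cases hb : H = ⊥
    · rw [hb]
      infer_instance
    · obtain ⟨⟨t, ht⟩, ht1⟩ := Subgroup.ne_bot_iff_exists_ne_one.1 hb
      exact cyclic_of_centralised hcen H t (fun h => ht1 (Subtype.ext h)) (fun q hq => hc q hq t ht)
  · exfalso
    push Not at hc
    obtain ⟨g, hg, h, hh, hne'⟩ := hc
    obtain ⟨x, hx⟩ := hH hg
    obtain ⟨y, hy⟩ := hH hh
    apply hne
    refine le_antisymm hH ?_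
    rintro q ⟨s, hs⟩
    have h1 : κ (x * y * x⁻¹ * y⁻¹) ∉ R := by
      intro h2
      apply hne'
      have h3 : (QuotientGroup.mk' R).comp κ (x * y * x⁻¹ * y⁻¹) = 1 := by
        rw [MonoidHom.comp_apply]
        exact (QuotientGroup.eq_one_iff _).2 h2
      rw [map_mul, map_mul, map_mul, map_inv, map_inv, hx, hy] at h3
      have h4 := mul_inv_eq_one.1 h3
      exact mul_inv_eq_iff_eq_mul.1 h4
    obtain ⟨v, hv, hv2⟩ := hgen x y s h1
    have h5 : (QuotientGroup.mk' R).comp κ v = q := by
      rw [← hs]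
      have h6 : (QuotientGroup.mk' R).comp κ (v * s⁻¹) = 1 := by
        rw [MonoidHom.comp_apply]
        exact (QuotientGroup.eq_one_iff _).2 hv2
      rw [map_mul, map_inv] at h6
      exact mul_inv_eq_one.1 h6
    rw [← h5]
    have h7 : (QuotientGroup.mk' R).comp κ v ∈
        (Subgroup.closure ({x, y} : Set GG)).map ((QuotientGroup.mk' R).comp κ) :=
      Subgroup.mem_map_of_mem _ hv
    rw [MonoidHom.map_closure, Set.image_pair, hx, hy] at h7
    refine (Subgroup.closure_le H).2 ?_ h7
    intro w hw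
    simp only [Set.mem_insert_iff, Set.mem_singleton_iff] at hw
    rcases hw with rfl | rfl
    · exact hg
    · exact hh

theorem range_gen {G : Type} [Group G] (f : GG →* G) :
    f.range = Subgroup.closure {f (FreeGroup.of 0), f (FreeGroup.of 1)} := by
  rw [MonoidHom.range_eq_map, ← FreeGroup.closure_range_of (Fin 2), MonoidHom.map_closure, ← Set.range_comp]
  congr 1
  ext x
  simp only [Set.mem_range, Function.comp_apply, Set.mem_insert_iff, Set.mem_singleton_iff]
  constructor
  · rintro ⟨i, rfl⟩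
    fin_cases i
    · exact Or.inl rfl
    · exact Or.inr rfl
  · rintro (rfl | rfl)
    · exact ⟨0, rfl⟩
    · exact ⟨1, rfl⟩

/-- There is a group `G = AB` such that: (1) all proper subgroups of `A` and of `B` are cyclic; (2) `A` and `B`
are generated by two elements, and every subgroup of `A` or of `B` is generated by at most two elements; (3) `G`
contains a free group of rank 2; (4) the centraliser of every nontrivial element of `G` is cyclic; (5) there is no
`r` such that every finitely generated subgroup of `G` is generated by `r` elements; (6) `G` has a subgroup that is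
not finitely generated. -/
theorem result : ∃ (G : Type) (_ : Group G) (A B : Subgroup G),
    (∀ g : G, ∃ a ∈ A, ∃ b ∈ B, a * b = g) ∧
    (∀ H : Subgroup G, H < A ∨ H < B → IsCyclic H) ∧
    (∃ x y : G, A = Subgroup.closure {x, y}) ∧ (∃ x y : G, B = Subgroup.closure {x, y}) ∧
    (∀ H : Subgroup G, H ≤ A ∨ H ≤ B → ∃ s : Finset G, s.card ≤ 2 ∧ Subgroup.closure (s : Set G) = H) ∧
    (∃ f : FreeGroup (Fin 2) →* G, Function.Injective f) ∧
    (∀ g : G, g ≠ 1 → IsCyclic (Subgroup.centralizer {g})) ∧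
    (¬ ∃ r : ℕ, ∀ H : Subgroup G, H.FG →
      ∃ s : Finset G, s.card ≤ r ∧ Subgroup.closure (s : Set G) = H) ∧
    ¬ ∀ H : Subgroup G, H.FG := by
  obtain ⟨R, h⟩ := exists_lim geomI geomII sepI
  have := h.norm
  refine ⟨FF ⧸ R, inferInstance, ((QuotientGroup.mk' R).comp al).range,
    ((QuotientGroup.mk' R).comp be).range, fac' h, ?_, ⟨_, _, range_gen _⟩, ⟨_, _, range_gen _⟩, ?_,
    ⟨_, io_inj h⟩, ?_, neg_rank _ (io_inj h), neg_max _ (io_inj h)⟩
  · rintro H (hH | hH)
    · exact proper_cyclic al h.genA h.cen H hH.le hH.ne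
    · exact proper_cyclic be h.genB h.cen H hH.le hH.ne
  · rintro H (hH | hH)
    · exact two_gen al h.genA h.cen H hH
    · exact two_gen be h.genB h.cen H hH
  · intro g hg
    refine cyclic_of_centralised h.cen _ g hg fun q hq => ?_
    exact (Subgroup.mem_centralizer_singleton_iff.1 hq)

end Pool.Agent.Results.MP_7e344a_al.TarskiFactors
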